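import Pool.Agent.Lib.MP_7470a2_gt.Defs
import Pool.Agent.Lib.MP_7470a2_gt.Main

/-!
# Lens spaces with exactly two fillings with `b₂ = 1`

By Lisca's classification the minimal symplectic fillings of `(L(n,a), ξ_std)` with `b₂ = 1`
correspond to the tuples in `FillingData n a`, and two tuples give the same filling if and only if
they are related by `SameFilling n a`. We determine all coprime pairs `(n, a)` for which there are
exactly two fillings: they are parametrised bijectively by the data in `Datum.IsFor`.

Idea. Let `w₀ = A, w₁, …, w_{s+1} = B` be the unimodular chain in `ℤ²` with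
`w_{i-1} + w_{i+1} = b_i w_i`. The tuple `b - e_i - e_j` is a filling if and only if
`A + B = det(A, w_i) w_i + det(w_j, B) w_j`. Two such pairs `(P, R)` and `(Q, S)` define the same
product of two transvections (by the formula `∑ k_i + k₀ = 3 (s - 1)` for admissible zero continued
fractions), hence they are interleaved, and `X = det(P,Q) = det(R,S)`, `Y = det(Q,R)`,
`δ = det(P,R) = det(Q,S)` satisfy `X² + δXY + Y² = δ²`; in a basis in which `Q = (1,0)` one has
`P = (p,-X)`, `R = (κ,Y)`, `S = (s,δ)`, `A = (t+m,-m)` and `B = mQ + m'S - A`. Conversely such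
vectors always lie on the chain. A third pair is excluded by an arithmetic argument.
-/

open Pool.Agent.Lib.MP_7470a2_gt

namespace Pool.Agent.Results.MP_7470a2_gt.TwoFillings

/-- **Classification of the lens spaces with exactly two fillings with `b₂ = 1`**, by the data
in `Datum.IsFor`; the datum of a pair `(n, a)` is unique. -/
theorem result (n a : ℕ) (h0 : 0 < a) (h1 : a < n) (hc : Nat.Coprime a n) :
    (ExactlyTwo n a ↔ ¬ a ^ 2 ≡ 1 [MOD n] ∧ ∃ q : Datum, q.IsFor n a) ∧
      ∀ q q' : Datum, q.IsFor n a → q'.IsFor n a → q = q' :=
  main h0 h1 hc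

end Pool.Agent.Results.MP_7470a2_gt.TwoFillings
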